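import Mathlib

/-!
# A spectrahedral cone that is not projectionally exposed

Negative answer to Q1. Coordinates `(x₁, x₂, x₃, x₄, α, c)`, `τ = x₁ + x₂ - x₃ - x₄`, and the pencil
`diag(x₁, x₂, x₃, x₄) ⊕ [[α, τ], [τ, c]]`. The face `c = 0` of the cone is not the image of the cone
under a linear projection.
-/

set_option autoImplicit false

namespace Pool.Agent.Results.MP_55559b_an.NotPExposed

/-- The spectrahedral cone `{x : ∑ x_i A_i ⪰ 0}`. -/
def specCone {n m : ℕ} (A : Fin n → Matrix (Fin m) (Fin m) ℝ) : Set (Fin n → ℝ) :=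
  {x | (∑ i, x i • A i).PosSemidef}

/-- `F` is a face of the cone `K`: a nonempty closed convex subcone such that `x, y ∈ K` and
`x + y ∈ F` imply `x, y ∈ F`. -/
structure IsFace {n : ℕ} (K F : Set (Fin n → ℝ)) : Prop where
  subset : F ⊆ K
  nonempty : F.Nonempty
  closed : IsClosed F
  convex : Convex ℝ F
  cone : ∀ x ∈ F, ∀ r : ℝ, 0 ≤ r → r • x ∈ F
  face : ∀ x ∈ K, ∀ y ∈ K, x + y ∈ F → x ∈ F ∧ y ∈ F

/-- The linear form `τ`. -/
def tau (x : Fin 6 → ℝ) : ℝ := x 0 + x 1 - x 2 - x 3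

/-- The pencil. -/
def M (x : Fin 6 → ℝ) : Matrix (Fin 6) (Fin 6) ℝ :=
  !![x 0, 0, 0, 0, 0, 0;
     0, x 1, 0, 0, 0, 0;
     0, 0, x 2, 0, 0, 0;
     0, 0, 0, x 3, 0, 0;
     0, 0, 0, 0, x 4, tau x;
     0, 0, 0, 0, tau x, x 5]

/-- The matrices of the pencil. -/
def A (i : Fin 6) : Matrix (Fin 6) (Fin 6) ℝ := M (Pi.single i 1)

lemma sum_A (x : Fin 6 → ℝ) : ∑ i, x i • A i = M x := by
  ext a b
  simp only [Matrix.sum_apply, Matrix.smul_apply, Fin.sum_univ_six, A]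
  fin_cases a <;> fin_cases b <;> simp [M, tau] <;> ring

lemma A_symm (i : Fin 6) : (A i).IsSymm := by
  ext a b
  fin_cases a <;> fin_cases b <;> rfl

lemma A_indep : LinearIndependent ℝ A := by
  rw [Fintype.linearIndependent_iff]
  intro g hg i
  rw [sum_A] at hg
  have h : ∀ a : Fin 6, M g a a = 0 := fun a => by rw [hg]; rfl
  have h' := h i
  fin_cases i <;> simpa [M] using h'

lemma quad (x v : Fin 6 → ℝ) : star v ⬝ᵥ (M x).mulVec v =
    x 0 * v 0 ^ 2 + x 1 * v 1 ^ 2 + x 2 * v 2 ^ 2 + x 3 * v 3 ^ 2 +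
      (x 4 * v 4 ^ 2 + 2 * tau x * v 4 * v 5 + x 5 * v 5 ^ 2) := by
  simp [dotProduct, Matrix.mulVec, Fin.sum_univ_six, M]
  ring

lemma mem_iff (x : Fin 6 → ℝ) : x ∈ specCone A ↔
    0 ≤ x 0 ∧ 0 ≤ x 1 ∧ 0 ≤ x 2 ∧ 0 ≤ x 3 ∧ 0 ≤ x 4 ∧ 0 ≤ x 5 ∧ (tau x) ^ 2 ≤ x 4 * x 5 := by
  have hH : (M x).IsHermitian := by
    ext a b
    fin_cases a <;> fin_cases b <;> rfl
  show (∑ i, x i • A i).PosSemidef ↔ _
  rw [sum_A, Matrix.posSemidef_iff_dotProduct_mulVec]
  simp only [hH, true_and, quad]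
  constructor
  · intro h
    have h0 := h ![1, 0, 0, 0, 0, 0]
    have h1 := h ![0, 1, 0, 0, 0, 0]
    have h2 := h ![0, 0, 1, 0, 0, 0]
    have h3 := h ![0, 0, 0, 1, 0, 0]
    have h4 := h ![0, 0, 0, 0, 1, 0]
    have h5 := h ![0, 0, 0, 0, 0, 1]
    have h6 := h ![0, 0, 0, 0, x 5, - tau x]
    have h7 := h ![0, 0, 0, 0, - tau x, x 4]
    have h8 := h ![0, 0, 0, 0, 1, - tau x]
    simp at h0 h1 h2 h3 h4 h5 h6 h7 h8
    refine ⟨h0, h1, h2, h3, h4, h5, ?_⟩
    rcases h4.lt_or_eq with h4' | h4'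
    · by_contra hcon
      push Not at hcon
      nlinarith
    · rcases h5.lt_or_eq with h5' | h5'
      · by_contra hcon
        push Not at hcon
        nlinarith
      · rw [← h4', ← h5'] at h8
        rw [← h4', ← h5']
        nlinarith
  · rintro ⟨h0, h1, h2, h3, h4, h5, h6⟩ v
    have hb : 0 ≤ x 4 * v 4 ^ 2 + 2 * tau x * v 4 * v 5 + x 5 * v 5 ^ 2 := by
      rcases h4.lt_or_eq with h4' | h4'
      · have : 0 ≤ x 4 * (x 4 * v 4 ^ 2 + 2 * tau x * v 4 * v 5 + x 5 * v 5 ^ 2) := by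
          have e : x 4 * (x 4 * v 4 ^ 2 + 2 * tau x * v 4 * v 5 + x 5 * v 5 ^ 2) =
            (x 4 * v 4 + tau x * v 5) ^ 2 + (x 4 * x 5 - (tau x) ^ 2) * v 5 ^ 2 := by ring
          rw [e]
          have : 0 ≤ x 4 * x 5 - (tau x) ^ 2 := by linarith
          positivity
        exact nonneg_of_mul_nonneg_right this h4'
      · have ht : tau x = 0 := by
          rw [← h4', zero_mul] at h6
          exact pow_eq_zero_iff (two_ne_zero) |>.1 (le_antisymm h6 (sq_nonneg _))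
        rw [← h4', ht]
        have : 0 ≤ x 5 * v 5 ^ 2 := by positivity
        linarith
    positivity

/-- The face `c = 0`. -/
def F : Set (Fin 6 → ℝ) := {x | x ∈ specCone A ∧ x 5 = 0}

lemma mem_F (x : Fin 6 → ℝ) : x ∈ F ↔
    0 ≤ x 0 ∧ 0 ≤ x 1 ∧ 0 ≤ x 2 ∧ 0 ≤ x 3 ∧ 0 ≤ x 4 ∧ tau x = 0 ∧ x 5 = 0 := by
  show x ∈ specCone A ∧ x 5 = 0 ↔ _
  rw [mem_iff]
  constructor
  · rintro ⟨⟨h0, h1, h2, h3, h4, h5, h6⟩, h7⟩
    refine ⟨h0, h1, h2, h3, h4, ?_, h7⟩
    rw [h7, mul_zero] at h6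
    exact pow_eq_zero_iff (two_ne_zero) |>.1 (le_antisymm h6 (sq_nonneg _))
  · rintro ⟨h0, h1, h2, h3, h4, h5, h6⟩
    refine ⟨⟨h0, h1, h2, h3, h4, h6.ge, ?_⟩, h6⟩
    rw [h5, h6]
    norm_num

lemma tau_add (x y : Fin 6 → ℝ) : tau (x + y) = tau x + tau y := by
  simp [tau]; ring

lemma tau_smul (r : ℝ) (x : Fin 6 → ℝ) : tau (r • x) = r * tau x := by
  simp [tau]; ring

lemma F_face : IsFace (specCone A) F := by
  have hcone : ∀ x ∈ F, ∀ r : ℝ, 0 ≤ r → r • x ∈ F := by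
    intro x hx r hr
    rw [mem_F] at hx ⊢
    obtain ⟨h0, h1, h2, h3, h4, h5, h6⟩ := hx
    rw [tau_smul, h5]
    simp only [Pi.smul_apply, smul_eq_mul, h6]
    refine ⟨by positivity, by positivity, by positivity, by positivity, by positivity, by simp,
      by simp⟩
  have hadd : ∀ x ∈ F, ∀ y ∈ F, x + y ∈ F := by
    intro x hx y hy
    rw [mem_F] at hx hy ⊢
    obtain ⟨h0, h1, h2, h3, h4, h5, h6⟩ := hx
    obtain ⟨k0, k1, k2, k3, k4, k5, k6⟩ := hy
    rw [tau_add, h5, k5]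
    simp only [Pi.add_apply, h6, k6]
    refine ⟨by positivity, by positivity, by positivity, by positivity, by positivity, by simp,
      by simp⟩
  refine ⟨fun x hx => hx.1, ⟨0, ?_⟩, ?_, ?_, hcone, ?_⟩
  · rw [mem_F]; simp [tau]
  · have : F = {x | 0 ≤ x 0} ∩ ({x | 0 ≤ x 1} ∩ ({x | 0 ≤ x 2} ∩ ({x | 0 ≤ x 3} ∩
        ({x | 0 ≤ x 4} ∩ ({x | tau x = 0} ∩ {x | x 5 = 0}))))) := by
      ext x
      rw [mem_F]
      rfl
    rw [this]
    have hc : ∀ i : Fin 6, Continuous (fun x : Fin 6 → ℝ => x i) := fun i => continuous_apply i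
    refine (isClosed_le continuous_const (hc 0)).inter ?_
    refine (isClosed_le continuous_const (hc 1)).inter ?_
    refine (isClosed_le continuous_const (hc 2)).inter ?_
    refine (isClosed_le continuous_const (hc 3)).inter ?_
    refine (isClosed_le continuous_const (hc 4)).inter ?_
    refine IsClosed.inter ?_ (isClosed_eq (hc 5) continuous_const)
    exact isClosed_eq ((((hc 0).add (hc 1)).sub (hc 2)).sub (hc 3)) continuous_const
  · intro x hx y hy a b ha hb _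
    exact hadd _ (hcone x hx a ha) _ (hcone y hy b hb)
  · intro x hx y hy hxy
    have h := ((mem_F _).1 hxy).2.2.2.2.2.2
    have h1 := ((mem_iff _).1 hx).2.2.2.2.2.1
    have h2 := ((mem_iff _).1 hy).2.2.2.2.2.1
    simp only [Pi.add_apply] at h
    exact ⟨⟨hx, by linarith⟩, ⟨hy, by linarith⟩⟩

/-- For the cone `K` of the pencil and its face `F`, no linear projection maps `K` onto `F`. -/
lemma no_proj (P : (Fin 6 → ℝ) →ₗ[ℝ] (Fin 6 → ℝ)) (hP : P ∘ₗ P = P) : P '' (specCone A) ≠ F := by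
  intro hPF
  have hid : ∀ x ∈ F, P x = x := by
    intro x hx
    rw [← hPF] at hx
    obtain ⟨k, _, rfl⟩ := hx
    exact LinearMap.congr_fun hP k
  have hmem : ∀ x ∈ specCone A, P x ∈ F := fun x hx => hPF ▸ Set.mem_image_of_mem _ hx
  -- the images of the basis vectors
  have e4 : (Pi.single 4 1 : Fin 6 → ℝ) ∈ F := by rw [mem_F]; simp [tau]
  -- key
  have key : ∀ v : Fin 6 → ℝ, 0 ≤ v 0 → 0 ≤ v 1 → 0 ≤ v 2 → 0 ≤ v 3 → (tau v) ^ 2 ≤ 1 → v 4 = 0 →
      v 5 = 0 → 0 ≤ P v 0 ∧ 0 ≤ P v 1 ∧ 0 ≤ P v 2 ∧ 0 ≤ P v 3 ∧ tau (P v) = 0 := by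
    intro v v0 v1 v2 v3 vt v4 v5
    have hN : ∀ N : ℝ, 0 < N → P v + N • Pi.single 4 1 + N⁻¹ • P (Pi.single 5 1) ∈ F := by
      intro N hN
      have h1 : v + N • Pi.single 4 1 + N⁻¹ • (Pi.single 5 1) ∈ specCone A := by
        rw [mem_iff, tau_add, tau_add, tau_smul, tau_smul]
        have t4 : tau (Pi.single 4 1) = 0 := by simp [tau]
        have t5 : tau (Pi.single 5 1) = 0 := by simp [tau]
        rw [t4, t5]
        simp [v0, v1, v2, v3, v4, v5, hN.le]
        rw [mul_inv_cancel₀ hN.ne']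
        exact vt
      have h2 := hmem _ h1
      rw [map_add, map_add, map_smul, map_smul, hid _ e4] at h2
      exact h2
    -- linear inequalities in `1 / N` pass to the limit
    have hlim : ∀ a b : ℝ, (∀ N : ℝ, 0 < N → 0 ≤ a + N⁻¹ * b) → 0 ≤ a := by
      intro a b h
      by_contra ha
      push Not at ha
      have hb : 0 < |b| + 1 := by positivity
      have hN : 0 < (|b| + 1) / (-a) := by apply div_pos hb; linarith
      have h3 := h _ hN
      rw [inv_div] at h3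
      have h4 : (-a) / (|b| + 1) * b ≤ (-a) / (|b| + 1) * |b| :=
        mul_le_mul_of_nonneg_left (le_abs_self b) (div_nonneg (by linarith) hb.le)
      have h5 : (-a) / (|b| + 1) * |b| < -a := by
        rw [div_mul_eq_mul_div, div_lt_iff₀ hb]
        nlinarith [abs_nonneg b]
      linarith
    have hi : ∀ i : Fin 6, i ≠ 4 → (∀ N : ℝ, 0 < N →
        0 ≤ (P v + N • (Pi.single 4 1 : Fin 6 → ℝ) + N⁻¹ • P (Pi.single 5 1)) i) → 0 ≤ P v i := by
      intro i hi4 h
      apply hlim _ (P (Pi.single 5 1) i)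
      intro N hN
      have := h N hN
      have h4 : (Pi.single 4 1 : Fin 6 → ℝ) i = 0 := by simp [hi4]
      simp only [Pi.add_apply, Pi.smul_apply, smul_eq_mul, h4, mul_zero, add_zero] at this
      exact this
    have ht : ∀ N : ℝ, 0 < N → tau (P v) + N⁻¹ * tau (P (Pi.single 5 1)) = 0 := by
      intro N hN'
      have h1 := ((mem_F _).1 (hN N hN')).2.2.2.2.2.1
      rw [tau_add, tau_add, tau_smul, tau_smul] at h1
      have t4 : tau (Pi.single 4 1) = 0 := by simp [tau]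
      rw [t4] at h1
      linarith
    refine ⟨hi 0 (by decide) fun N h => ((mem_F _).1 (hN N h)).1,
      hi 1 (by decide) fun N h => ((mem_F _).1 (hN N h)).2.1,
      hi 2 (by decide) fun N h => ((mem_F _).1 (hN N h)).2.2.1,
      hi 3 (by decide) fun N h => ((mem_F _).1 (hN N h)).2.2.2.1, ?_⟩
    apply le_antisymm
    · have := hlim (-tau (P v)) (-tau (P (Pi.single 5 1))) fun N h => by
        have := ht N h
        linarith
      linarith
    · exact hlim _ (tau (P (Pi.single 5 1))) fun N h => (ht N h).ge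
  obtain ⟨a0, a1, a2, a3, at'⟩ := key (Pi.single 0 1) (by simp) (by simp) (by simp) (by simp)
    (by simp [tau]) (by simp) (by simp)
  obtain ⟨b0, b1, b2, b3, bt⟩ := key (Pi.single 1 1) (by simp) (by simp) (by simp) (by simp)
    (by simp [tau]) (by simp) (by simp)
  obtain ⟨c0, c1, c2, c3, ct⟩ := key (Pi.single 2 1) (by simp) (by simp) (by simp) (by simp)
    (by simp [tau]) (by simp) (by simp)
  obtain ⟨d0, d1, d2, d3, dt⟩ := key (Pi.single 3 1) (by simp) (by simp) (by simp) (by simp)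
    (by simp [tau]) (by simp) (by simp)
  have s02 := hid (Pi.single 0 1 + Pi.single 2 1) (by rw [mem_F]; simp [tau])
  have s03 := hid (Pi.single 0 1 + Pi.single 3 1) (by rw [mem_F]; simp [tau])
  have s12 := hid (Pi.single 1 1 + Pi.single 2 1) (by rw [mem_F]; simp [tau])
  rw [map_add] at s02 s03 s12
  have x02 := fun i => congrFun s02 i
  have x03 := fun i => congrFun s03 i
  have x12 := fun i => congrFun s12 i
  have q1 := x02 0
  have q2 := x02 1
  have q3 := x02 2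
  have q4 := x02 3
  have r1 := x03 0
  have r2 := x03 1
  have r3 := x03 2
  have r4 := x03 3
  have w1 := x12 0
  have w2 := x12 1
  have w3 := x12 2
  have w4 := x12 3
  simp at q1 q2 q3 q4 r1 r2 r3 r4 w1 w2 w3 w4
  simp only [tau] at at' bt ct dt
  linarith

/-- There are symmetric matrices `A₁, …, A₆` (linearly independent) and a face of the spectrahedral
cone they define which is not the image of the cone under any linear projection. -/
theorem result : ∃ (n m : ℕ) (A : Fin n → Matrix (Fin m) (Fin m) ℝ),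
    (∀ i, (A i).IsSymm) ∧ LinearIndependent ℝ A ∧
    ∃ F : Set (Fin n → ℝ), IsFace (specCone A) F ∧
      ∀ P : (Fin n → ℝ) →ₗ[ℝ] (Fin n → ℝ), P ∘ₗ P = P → P '' (specCone A) ≠ F :=
  ⟨6, 6, A, A_symm, A_indep, F, F_face, no_proj⟩

end Pool.Agent.Results.MP_55559b_an.NotPExposed
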